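import Pool.Agent.ZPU.StmtsB

/-!
# Squad ZPU, row DEN: density
-/

set_option autoImplicit false

namespace Pool.Agent.ZPU.H7

open Polynomial Pool.Agent.ZPT Pool.Agent.ZP3

noncomputable section

theorem card_ix (n d : ℕ) :
    Fintype.card ((Fin n × Fin (d + 1)) ⊕ (Fin n × Fin (d + 1))) = 2 * n * (d + 1) := by
  simp only [Fintype.card_sum, Fintype.card_prod, Fintype.card_fin]
  ring

/-- the numbering of the coefficients -/
def nb (n d : ℕ) : ((Fin n × Fin (d + 1)) ⊕ (Fin n × Fin (d + 1))) ≃ Fin (2 * n * (d + 1)) :=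
  Fintype.equivFinOfCardEq (card_ix n d)

/-- the coefficient vectors as one vector -/
def enc (n d : ℕ) {R : Type} (w : (Fin n → Fin (d + 1) → R) × (Fin n → Fin (d + 1) → R))
    (k : Fin (2 * n * (d + 1))) : R :=
  Sum.elim (fun x => w.1 x.1 x.2) (fun x => w.2 x.1 x.2) ((nb n d).symm k)

/-- the inverse -/
def dec (n d : ℕ) {R : Type} (a : Fin (2 * n * (d + 1)) → R) :
    (Fin n → Fin (d + 1) → R) × (Fin n → Fin (d + 1) → R) :=
  (fun i j => a (nb n d (Sum.inl (i, j))), fun i j => a (nb n d (Sum.inr (i, j))))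

theorem dec_enc (n d : ℕ) {R : Type}
    (w : (Fin n → Fin (d + 1) → R) × (Fin n → Fin (d + 1) → R)) : dec n d (enc n d w) = w := by
  simp [dec, enc]

theorem enc_dec (n d : ℕ) {R : Type} (a : Fin (2 * n * (d + 1)) → R) :
    enc n d (dec n d a) = a := by
  funext k
  obtain ⟨x, rfl⟩ := (nb n d).surjective k
  rcases x with x | x <;> simp [dec, enc]

theorem enc_inj (n d : ℕ) {R : Type} : Function.Injective (enc n d (R := R)) :=
  Function.LeftInverse.injective (dec_enc n d)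

theorem dec_inj (n d : ℕ) {R : Type} : Function.Injective (dec n d (R := R)) :=
  Function.LeftInverse.injective (enc_dec n d)

/-- the bad residues -/
def BB (n d p : ℕ) : Set (Fin (2 * n * (d + 1)) → ℤ) :=
  {a | dec n d (fun k => ((a k : ℤ) : ZMod p)) ∈ badR p n d}

theorem den (dn3 : DN3Stmt) (bad : BADStmt) (hpv : HPVStmt) (fnu : FNUStmt) : DENStmt := by
  classical
  intro n d hd ε hε
  have hper : ∀ p : ℕ, p.Prime → ∀ a a' : Fin (2 * n * (d + 1)) → ℤ,
      (∀ i, (p : ℤ) ∣ a i - a' i) → (a ∈ BB n d p ↔ a' ∈ BB n d p) := by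
    intro p _ a a' h
    have h1 : (fun k => ((a k : ℤ) : ZMod p)) = fun k => ((a' k : ℤ) : ZMod p) := by
      funext k
      exact ((ZMod.intCast_eq_intCast_iff_dvd_sub (a' k) (a k) p).2 (h k)).symm
    simp only [BB, Set.mem_ofPred_eq, h1]
  have hcnt : ∀ p : ℕ, p.Prime → 40 * (d + 1) + 1 ≤ p →
      (({a ∈ BB n d p | ∀ i, 0 ≤ a i ∧ a i < p} :
        Set (Fin (2 * n * (d + 1)) → ℤ)).ncard : ℝ) * p ≤
        (2 * (n : ℝ) + 6 * (n : ℝ) ^ 2) * (p : ℝ) ^ (2 * n * (d + 1)) := by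
    intro p hp _
    have := Fact.mk hp
    have h1 : ({a ∈ BB n d p | ∀ i, 0 ≤ a i ∧ a i < p} :
        Set (Fin (2 * n * (d + 1)) → ℤ)).ncard ≤ (badR p n d).ncard := by
      refine Set.ncard_le_ncard_of_injOn
        (fun a => dec n d (fun k => ((a k : ℤ) : ZMod p))) ?_ ?_ (Set.toFinite _)
      · intro a ha
        exact ha.1
      · intro a ha a' ha' h
        have h2 := dec_inj n d h
        funext k
        have h3 := congrFun h2 k
        rw [ZMod.intCast_eq_intCast_iff'] at h3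
        rw [Int.emod_eq_of_lt (ha.2 k).1 (ha.2 k).2, Int.emod_eq_of_lt (ha'.2 k).1 (ha'.2 k).2]
          at h3
        exact h3
    have h2 := bad p hp n d
    have h3 : ({a ∈ BB n d p | ∀ i, 0 ≤ a i ∧ a i < p} :
        Set (Fin (2 * n * (d + 1)) → ℤ)).ncard * p ≤
        (2 * n + 6 * n ^ 2) * p ^ (2 * n * (d + 1)) :=
      (Nat.mul_le_mul_right p h1).trans h2
    exact_mod_cast h3
  obtain ⟨H₀, hH₀⟩ := dn3 (2 * n * (d + 1)) (40 * (d + 1) + 1) (2 * (n : ℝ) + 6 * (n : ℝ) ^ 2) ε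
    hε (BB n d) hper hcnt
  refine ⟨H₀, fun H hH A hA => ?_⟩
  let φ : (Fin n → Fin (d + 1) → ℤ) × (Fin n → Fin (d + 1) → ℤ) × ℤ →
      (Fin (2 * n * (d + 1)) → ℤ) × ℤ := fun w => (enc n d (w.1, w.2.1), w.2.2)
  have hφ : Function.Injective φ := by
    intro w w' h
    obtain ⟨h0, h2⟩ := Prod.ext_iff.1 h
    obtain ⟨h3, h4⟩ := Prod.ext_iff.1 (enc_inj n d h0)
    exact Prod.ext h3 (Prod.ext h4 h2)
  have h1 := hH₀ H hH (A.image φ) ?_
  · rwa [Finset.card_image_of_injective _ hφ] at h1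
  · intro v hv
    obtain ⟨w, hw, rfl⟩ := Finset.mem_image.1 hv
    obtain ⟨h1, h2, h3, h4, h5⟩ := hA w hw
    refine ⟨?_, h3, h4, ?_⟩
    · intro k
      obtain ⟨x, rfl⟩ := (nb n d).surjective k
      rcases x with x | x
      · have := h1 x.1 x.2
        simpa [φ, enc] using this
      · have := h2 x.1 x.2
        simpa [φ, enc] using this
    · rintro ⟨p, hp, hp0, hpd, -, -, hB⟩
      apply h5
      have := Fact.mk hp
      have h6 : ((fun i j => ((w.1 i j : ℤ) : ZMod p)), (fun i j => ((w.2.1 i j : ℤ) : ZMod p))) ∉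
          badR p n d := by
        intro h
        apply hB
        show dec n d (fun k => ((enc n d (w.1, w.2.1) k : ℤ) : ZMod p)) ∈ badR p n d
        have h7 : dec n d (fun k => ((enc n d (w.1, w.2.1) k : ℤ) : ZMod p)) =
            ((fun i j => ((w.1 i j : ℤ) : ZMod p)), (fun i j => ((w.2.1 i j : ℤ) : ZMod p))) := by
          simp [dec, enc]
        rw [h7]
        exact h
      have h7 := hpv p hp n d hd w.1 w.2.1 h6
      refine fnu p hp d n (fun _ => d) (fun i => pv (w.1 i)) (fun i => pv (w.2.1 i)) (by omega) h7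
        (1 / (w.2.2 : ℚ)) ?_
      have hN0 : (w.2.2 : ℚ) ≠ 0 := by
        have : w.2.2 ≠ 0 := by omega
        exact_mod_cast this
      have h8 : padicNorm p (w.2.2 : ℚ) < 1 := by
        rw [padicNorm.int_lt_one_iff]
        exact hpd
      have h9 : 0 < padicNorm p (w.2.2 : ℚ) :=
        lt_of_le_of_ne (padicNorm.nonneg _) (Ne.symm (padicNorm.nonzero hN0))
      rw [padicNorm.div, padicNorm.one, one_lt_div h9]
      exact h8

end

end Pool.Agent.ZPU.H7
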