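import Pool.Agent.ZPU.Stmts

/-!
# Squad ZPU, row PIE: size of `η - 1`
-/

set_option autoImplicit false

namespace Pool.Agent.ZPU.H7

open Polynomial Pool.Agent.ZPT Pool.Agent.ZP3 Pool.Agent.ZP3.H51

theorem th_facts {p : ℕ} (hp3 : 3 ≤ p) :
    th p ^ (p - 1) = (p : ℝ)⁻¹ ∧ 0 < th p ∧ th p < 1 ∧ (p : ℝ)⁻¹ ≤ th p ^ 2 := by
  have hp3' : (3 : ℝ) ≤ p := by exact_mod_cast hp3
  have hp1 : (1 : ℝ) < p := by linarith
  have hp0 : (0 : ℝ) < p := by linarith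
  have hq : (0 : ℝ) < (p : ℝ) - 1 := by linarith
  have hcast : (((p - 1 : ℕ) : ℕ) : ℝ) = (p : ℝ) - 1 := by
    rw [Nat.cast_sub (by omega)]
    norm_num
  have h1 : th p ^ (p - 1) = (p : ℝ)⁻¹ := by
    unfold th
    rw [← Real.rpow_natCast, ← Real.rpow_mul hp0.le, hcast, div_mul_cancel₀ _ hq.ne',
      Real.rpow_neg hp0.le, Real.rpow_one]
  have h2 : 0 < th p := by
    unfold th
    positivity
  have h3 : th p < 1 := by
    unfold th
    refine Real.rpow_lt_one_of_one_lt_of_neg hp1 ?_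
    exact div_neg_of_neg_of_pos (by norm_num) hq
  refine ⟨h1, h2, h3, ?_⟩
  rw [← h1]
  exact pow_le_pow_of_le_one h2.le h3.le (by omega)

theorem choose_cong {p : ℕ} (hp : p.Prime) : ∀ j < p, ∃ m : ℤ,
    (((p - 1).choose j : ℕ) : ℤ) = (-1) ^ j + (p : ℤ) * m := by
  intro j
  induction j with
  | zero => intro _; exact ⟨0, by simp⟩
  | succ j ih =>
    intro hj
    obtain ⟨m, hm⟩ := ih (by omega)
    obtain ⟨m', hm'⟩ := hp.dvd_choose_self (show j + 1 ≠ 0 by omega) hj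
    have h1 : p.choose (j + 1) = (p - 1).choose j + (p - 1).choose (j + 1) := by
      obtain ⟨q, rfl⟩ : ∃ q, p = q + 1 := ⟨p - 1, by have := hp.pos; omega⟩
      rfl
    refine ⟨(m' : ℤ) - m, ?_⟩
    have h2 : ((p.choose (j + 1) : ℕ) : ℤ) =
        (((p - 1).choose j : ℕ) : ℤ) + (((p - 1).choose (j + 1) : ℕ) : ℤ) := by
      exact_mod_cast h1
    rw [hm', hm] at h2
    push_cast at h2
    rw [pow_succ]
    linear_combination -h2

section

variable {K : Type} [NormedField K] [CharZero K] [IsUltrametricDist K]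

theorem norm_succ {p : ℕ} (hp : p.Prime) (hE : Ext p K) {j : ℕ} (hj : j + 1 < p) :
    ‖((j + 1 : ℕ) : K)‖ = 1 :=
  norm_nat_eq_one hp hE fun h => absurd (Nat.le_of_dvd (Nat.succ_pos j) h) (by omega)

theorem lc_norm {p : ℕ} (hp : p.Prime) (hE : Ext p K) {j : ℕ} (hj : j + 1 < p) :
    ‖lc K j‖ = 1 := by
  rw [lc, norm_div, norm_pow, norm_neg, norm_one, one_pow, norm_succ hp hE hj, div_one]

theorem lc_near {p : ℕ} (hp : p.Prime) (hE : Ext p K) {j : ℕ} (hj : j + 1 < p) :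
    ‖(p : K) * lc K j - ((p.choose (j + 1) : ℕ) : K)‖ ≤ ((p : ℝ)⁻¹) ^ 2 := by
  obtain ⟨m, hm⟩ := choose_cong hp j (by omega)
  have hj0 : ((j + 1 : ℕ) : K) ≠ 0 := Nat.cast_ne_zero.2 (Nat.succ_ne_zero j)
  have h1 : p * (p - 1).choose j = p.choose (j + 1) * (j + 1) := by
    obtain ⟨q, rfl⟩ : ∃ q, p = q + 1 := ⟨p - 1, by have := hp.pos; omega⟩
    exact Nat.add_one_mul_choose_eq q j
  have h2 : (p : K) * (((p - 1).choose j : ℕ) : K) =
      ((p.choose (j + 1) : ℕ) : K) * ((j + 1 : ℕ) : K) := by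
    exact_mod_cast congrArg (Nat.cast : ℕ → K) h1
  have h3 : (((p - 1).choose j : ℕ) : K) = (-1) ^ j + (p : K) * (m : K) := by
    have := congrArg (Int.cast : ℤ → K) hm
    push_cast at this
    exact this
  have h4 : (p : K) * lc K j - ((p.choose (j + 1) : ℕ) : K) =
      -((p : K) * (p : K) * (m : K)) / ((j + 1 : ℕ) : K) := by
    rw [lc]
    rw [h3] at h2
    field_simp
    linear_combination h2
  rw [h4, norm_div, norm_succ hp hE hj, div_one, norm_neg, norm_mul, norm_mul, norm_p hp hE]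
  have h5 : ‖(m : K)‖ ≤ 1 := IsUltrametricDist.norm_intCast_le_one K m
  have h6 : 0 ≤ (p : ℝ)⁻¹ := by positivity
  calc (p : ℝ)⁻¹ * (p : ℝ)⁻¹ * ‖(m : K)‖ ≤ (p : ℝ)⁻¹ * (p : ℝ)⁻¹ * 1 := by gcongr
    _ = ((p : ℝ)⁻¹) ^ 2 := by ring

theorem base {p : ℕ} (hp : p.Prime) (hE : Ext p K) {y : K} (hy0 : y ≠ 0) (hy1 : ‖y‖ ≤ 1)
    (hw : (y + 1) ^ p = 1) : ‖y ^ (p - 1) + (p : K) * l1 p y‖ ≤ ((p : ℝ)⁻¹) ^ 2 := by
  obtain ⟨q, hq⟩ : ∃ q, p = q + 1 := ⟨p - 1, by have := hp.pos; omega⟩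
  have h1 := add_pow y 1 p
  rw [hw, Finset.sum_range_succ] at h1
  have hr : Finset.range p = Finset.range (q + 1) := by rw [hq]
  rw [hr, Finset.sum_range_succ'] at h1
  simp only [one_pow, mul_one, Nat.choose_self, Nat.cast_one, pow_zero,
    Nat.choose_zero_right] at h1
  have h2 : y * (∑ j ∈ Finset.range q, y ^ j * ((p.choose (j + 1) : ℕ) : K) + y ^ q) = 0 := by
    rw [mul_add, Finset.mul_sum]
    have h3 : y ^ p = y * y ^ q := by rw [hq, pow_succ, mul_comm]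
    have h4 : ∑ j ∈ Finset.range q, y * (y ^ j * ((p.choose (j + 1) : ℕ) : K)) =
        ∑ j ∈ Finset.range q, y ^ (j + 1) * ((p.choose (j + 1) : ℕ) : K) :=
      Finset.sum_congr rfl fun j _ => by ring
    rw [h4, ← h3]
    linear_combination -h1
  have h3 := (mul_eq_zero.1 h2).resolve_left hy0
  have hq' : p - 1 = q := by omega
  rw [hq', l1, hq', Finset.mul_sum]
  have h4 : y ^ q + ∑ j ∈ Finset.range q, (p : K) * (lc K j * y ^ j) =
      ∑ j ∈ Finset.range q, ((p : K) * lc K j - ((p.choose (j + 1) : ℕ) : K)) * y ^ j := by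
    have h5 : ∑ j ∈ Finset.range q, ((p : K) * lc K j - ((p.choose (j + 1) : ℕ) : K)) * y ^ j =
        ∑ j ∈ Finset.range q, (p : K) * (lc K j * y ^ j) -
          ∑ j ∈ Finset.range q, y ^ j * ((p.choose (j + 1) : ℕ) : K) := by
      rw [← Finset.sum_sub_distrib]
      exact Finset.sum_congr rfl fun j _ => by ring
    rw [h5]
    linear_combination h3
  rw [h4]
  refine IsUltrametricDist.norm_sum_le_of_forall_le_of_nonneg (by positivity) fun j hj => ?_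
  rw [norm_mul, norm_pow]
  have h6 := lc_near (K := K) hp hE (j := j) (by have := Finset.mem_range.1 hj; omega)
  exact (mul_le_of_le_one_right (norm_nonneg _) (pow_le_one₀ (norm_nonneg _) hy1)).trans h6

theorem l1_near {p : ℕ} (hp : p.Prime) (hp3 : 3 ≤ p) (hE : Ext p K) {y : K} (hy1 : ‖y‖ ≤ 1) :
    ‖l1 p y - 1‖ ≤ ‖y‖ := by
  obtain ⟨q, hq⟩ : ∃ q, p - 1 = q + 1 := ⟨p - 2, by omega⟩
  rw [l1, hq, Finset.sum_range_succ']
  have h0 : lc K 0 * y ^ 0 = 1 := by simp [lc]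
  rw [h0, add_sub_cancel_right]
  refine IsUltrametricDist.norm_sum_le_of_forall_le_of_nonneg (norm_nonneg _) fun j hj => ?_
  rw [norm_mul, lc_norm hp hE (by have := Finset.mem_range.1 hj; omega), one_mul, norm_pow,
    pow_succ]
  exact mul_le_of_le_one_left (norm_nonneg _) (pow_le_one₀ (norm_nonneg _) hy1)

theorem step {p : ℕ} (hp : p.Prime) (hE : Ext p K) {y : K} (hy1 : ‖y‖ ≤ 1) :
    ‖y ^ p - ((y + 1) ^ p - 1)‖ ≤ (p : ℝ)⁻¹ * ‖y‖ := by
  have h := add_pow y 1 p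
  rw [Finset.sum_range_succ,
    ← Finset.sum_range_add_sum_Ico _ (show 1 ≤ p from hp.one_lt.le)] at h
  simp only [one_pow, mul_one, Nat.choose_self, Nat.cast_one] at h
  rw [Finset.sum_range_succ, Finset.sum_range_zero] at h
  simp only [pow_zero, Nat.choose_zero_right, Nat.cast_one, one_mul, zero_add] at h
  have h2 : y ^ p - ((y + 1) ^ p - 1) =
      -∑ i ∈ Finset.Ico 1 p, y ^ i * ((p.choose i : ℕ) : K) := by
    rw [h]
    ring
  rw [h2, norm_neg]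
  refine IsUltrametricDist.norm_sum_le_of_forall_le_of_nonneg (by positivity) fun i hi => ?_
  rw [Finset.mem_Ico] at hi
  obtain ⟨m, hm⟩ := hp.dvd_choose_self (show i ≠ 0 by omega) hi.2
  rw [hm]
  push_cast
  rw [norm_mul, norm_mul, norm_p hp hE, norm_pow]
  have e1 : ‖y‖ ^ i ≤ ‖y‖ ^ 1 := pow_le_pow_of_le_one (norm_nonneg _) hy1 hi.1
  have e2 : ‖(m : K)‖ ≤ 1 := IsUltrametricDist.norm_natCast_le_one K m
  have e3 : 0 ≤ (p : ℝ)⁻¹ := by positivity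
  calc ‖y‖ ^ i * ((p : ℝ)⁻¹ * ‖(m : K)‖) ≤ ‖y‖ ^ 1 * ((p : ℝ)⁻¹ * 1) := by gcongr
    _ = (p : ℝ)⁻¹ * ‖y‖ := by ring

theorem pow_diff {x y : K} {ρ : ℝ} (hx : ‖x‖ ≤ ρ) (hy : ‖y‖ ≤ ρ) (m : ℕ) :
    ‖x ^ (m + 1) - y ^ (m + 1)‖ ≤ ‖x - y‖ * ρ ^ m := by
  have hρ : 0 ≤ ρ := (norm_nonneg _).trans hx
  induction m with
  | zero => simp
  | succ m ih =>
    have e : x ^ (m + 1 + 1) - y ^ (m + 1 + 1) =
        x * (x ^ (m + 1) - y ^ (m + 1)) + (x - y) * y ^ (m + 1) := by ring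
    rw [e]
    refine add_le' ?_ ?_
    · rw [norm_mul]
      calc ‖x‖ * ‖x ^ (m + 1) - y ^ (m + 1)‖ ≤ ρ * (‖x - y‖ * ρ ^ m) := by gcongr
        _ = ‖x - y‖ * ρ ^ (m + 1) := by ring
    · rw [norm_mul, norm_pow]
      gcongr

theorem main {p : ℕ} (hp : p.Prime) (hp3 : 3 ≤ p) (hE : Ext p K) (wwn : WWNStmt) (j : ℕ) :
    ∀ η : K, IsPrimitiveRoot η (p ^ (j + 1)) →
      ‖(η - 1) ^ ph p (j + 1) + (p : K)‖ ≤ th p * (p : ℝ)⁻¹ := by
  obtain ⟨ht1, ht2, ht3, ht4⟩ := th_facts hp3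
  have hpi : 0 < (p : ℝ)⁻¹ := inv_pos.2 (by exact_mod_cast hp.pos)
  induction j with
  | zero =>
    intro η hη
    obtain ⟨-, h1, h2, h3⟩ := wwn p hp hp3 K hE 1 η le_rfl hη
    have h3 := h3 rfl
    have h0 : η - 1 ≠ 0 := norm_pos_iff.1 (by rw [h3]; exact ht2)
    have hpow : (η - 1 + 1) ^ p = 1 := by
      rw [sub_add_cancel]
      have := hη.pow_eq_one
      simpa using this
    have h4 := base hp hE h0 h2.le hpow
    have h5 := l1_near hp hp3 hE h2.le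
    have hph : ph p (0 + 1) = p - 1 := by simp [ph]
    rw [hph]
    have e : (η - 1) ^ (p - 1) + (p : K) =
        ((η - 1) ^ (p - 1) + (p : K) * l1 p (η - 1)) - (p : K) * (l1 p (η - 1) - 1) := by ring
    rw [e]
    refine sub_le' (h4.trans ?_) ?_
    · rw [sq]
      refine mul_le_mul_of_nonneg_right ?_ hpi.le
      refine ht4.trans ?_
      rw [sq]
      exact mul_le_of_le_one_left ht2.le ht3.le
    · rw [norm_mul, norm_p hp hE, mul_comm]
      refine mul_le_mul_of_nonneg_right ?_ hpi.le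
      rw [← h3]
      exact h5
  | succ j ih =>
    intro η hη
    have hη' : IsPrimitiveRoot (η ^ p) (p ^ (j + 1)) :=
      hη.pow (pow_pos hp.pos _) (by rw [pow_succ p (j + 1), mul_comm])
    obtain ⟨h1, -, -, -⟩ := wwn p hp hp3 K hE (j + 1) (η ^ p) (by omega) hη'
    obtain ⟨h2, h3, h4, -⟩ := wwn p hp hp3 K hE (j + 1 + 1) η (by omega) hη
    simp only [Nat.add_sub_cancel] at h1 h2
    have h5 := ih (η ^ p) hη'
    obtain ⟨N, hN⟩ : ∃ N : ℕ, p ^ j * (p - 1) = N + 1 :=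
      ⟨p ^ j * (p - 1) - 1, by
        have : 0 < p ^ j * (p - 1) := Nat.mul_pos (pow_pos hp.pos _) (by omega)
        omega⟩
    have hph : ph p (j + 1) = N + 1 := by rw [ph, Nat.add_sub_cancel, hN]
    have hN2 : p ^ (j + 1) * (p - 1) = p * (N + 1) := by rw [← hN, pow_succ]; ring
    have hph2 : ph p (j + 1 + 1) = p * (N + 1) := by rw [ph, Nat.add_sub_cancel, hN2]
    rw [hph] at h5
    rw [hph2, pow_mul]
    rw [hN] at h1
    rw [hN2, pow_mul] at h2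
    have h6 : ‖η ^ p - 1‖ = ‖η - 1‖ ^ p := by
      rw [← h1] at h2
      exact ((pow_left_inj₀ (by positivity) (norm_nonneg _) (Nat.succ_ne_zero N)).1 h2).symm
    have h7 := step hp hE h4.le
    rw [sub_add_cancel] at h7
    have h8 := pow_diff (x := (η - 1) ^ p) (y := η ^ p - 1) (ρ := ‖η - 1‖ ^ p)
      (by rw [norm_pow]) h6.le N
    have h9 : (0 : ℝ) < ‖η - 1‖ := ht2.trans_le h3
    have hu : th p ≤ ‖η - 1‖ ^ (p - 1) := by
      by_contra hlt
      rw [not_le] at hlt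
      have e1 : (‖η - 1‖ ^ (p - 1)) ^ p < th p ^ p :=
        pow_lt_pow_left₀ hlt (by positivity) hp.ne_zero
      have e2 : th p ^ p ≤ (p : ℝ)⁻¹ := by
        have : th p ^ p = th p ^ (p - 1) * th p := by
          rw [← pow_succ]
          congr 1
          omega
        rw [this, ht1]
        exact mul_le_of_le_one_right hpi.le ht3.le
      have e3 : (p : ℝ)⁻¹ ≤ (‖η - 1‖ ^ (p - 1)) ^ p := by
        rw [← h2, ← pow_mul, ← pow_mul]
        refine pow_le_pow_of_le_one h9.le h4.le ?_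
        rw [← hN2, mul_comm (p - 1) p]
        refine Nat.mul_le_mul_right _ ?_
        exact Nat.le_self_pow (Nat.succ_ne_zero j) p
      linarith
    have h10 : ‖η - 1‖ * (‖η - 1‖ ^ p) ^ N ≤ th p := by
      have e1 : ‖η - 1‖ ^ p = ‖η - 1‖ ^ (p - 1) * ‖η - 1‖ := by
        rw [← pow_succ]
        congr 1
        omega
      have e2 : (‖η - 1‖ * (‖η - 1‖ ^ p) ^ N) * ‖η - 1‖ ^ (p - 1) = (p : ℝ)⁻¹ := by
        rw [← h2, pow_succ (‖η - 1‖ ^ p) N]
        rw [show (‖η - 1‖ ^ p) ^ N * ‖η - 1‖ ^ p =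
          (‖η - 1‖ ^ p) ^ N * (‖η - 1‖ ^ (p - 1) * ‖η - 1‖) by rw [← e1]]
        ring
      have e3 : (p : ℝ)⁻¹ ≤ th p * ‖η - 1‖ ^ (p - 1) := by
        refine ht4.trans ?_
        rw [sq]
        exact mul_le_mul_of_nonneg_left hu ht2.le
      rw [← e2] at e3
      exact le_of_mul_le_mul_right e3 (by positivity)
    have e : ((η - 1) ^ p) ^ (N + 1) + (p : K) =
        (((η - 1) ^ p) ^ (N + 1) - (η ^ p - 1) ^ (N + 1)) + ((η ^ p - 1) ^ (N + 1) + (p : K)) := by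
      ring
    rw [e]
    refine add_le' (h8.trans ?_) h5
    calc ‖(η - 1) ^ p - (η ^ p - 1)‖ * (‖η - 1‖ ^ p) ^ N
        ≤ ((p : ℝ)⁻¹ * ‖η - 1‖) * (‖η - 1‖ ^ p) ^ N := by gcongr
      _ = (‖η - 1‖ * (‖η - 1‖ ^ p) ^ N) * (p : ℝ)⁻¹ := by ring
      _ ≤ th p * (p : ℝ)⁻¹ := mul_le_mul_of_nonneg_right h10 hpi.le

end

theorem pie (wwn : WWNStmt) (_thb : THBStmt) : PIEStmt := by
  intro p hp hp3 K _ _ _ hE a η ha hη
  obtain ⟨j, rfl⟩ : ∃ j, a = j + 1 := ⟨a - 1, by omega⟩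
  refine ⟨main hp hp3 hE wwn j η hη, fun h => ?_⟩
  obtain rfl : j = 0 := by omega
  obtain ⟨-, -, h2, h3⟩ := wwn p hp hp3 K hE 1 η le_rfl hη
  have h3 := h3 rfl
  have h0 : η - 1 ≠ 0 := norm_pos_iff.1 (by rw [h3]; exact (th_facts hp3).2.1)
  refine base hp hE h0 h2.le ?_
  rw [sub_add_cancel]
  have := hη.pow_eq_one
  simpa using this

end Pool.Agent.ZPU.H7
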